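import Pool.Agent.Lib.MP_894941_lc.SC

/-!
In every model of ZFC, a normal measure on some `k < cof l` that concentrates on cardinals
superstrong with target `l` refutes the Extender Embedding Axiom: `l` is a strong limit cardinal
and some `κ ≤ k` is tall with target `l` but is not superstrong.  The two lemmas after the
result show that its hypotheses hold at each 1-extendible cardinal and below each
`|V_{δ+1}|`-supercompact cardinal `δ`.
-/

namespace Pool.Agent.Results.MP_894941_lc.NoEEA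

open Pool.Agent.Lib.MP_1d770b_lc Pool.Agent.Lib.MP_75a307_lc Pool.Agent.Lib.MP_894941_lc

universe u

theorem result {M : Type u} (E : M → M → Prop) (hZF : IsZF E) (hAC : Choice E) (k l : M)
    (hk : E k l) (hc : ∀ f, Func E f k l → ∃ b, E b l ∧ ∀ x y, App E f x y → E y b)
    (hS : Conc E k fun α => Superstrong E α l) :
    StrongLim E l ∧ ∃ κ, Incl E κ k ∧ Tall E κ l ∧ ∀ μ, ¬ Superstrong E κ μ :=
  have : ZF E := ⟨hZF⟩
  main2 hAC hk hc hS

/-- `e : V_{k+1} → V_{l+1}` elementary with critical point `k`. -/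
theorem oneExt {M : Type u} (E : M → M → Prop) (hZF : IsZF E) (hAC : Choice E) (k l A B e : M)
    (h1 : IsOrd E k) (h2 : IsOrd E l) (hA : ∀ x, E x A ↔ ∀ y, E y x → InV E y k)
    (hB : ∀ x, E x B ↔ ∀ y, E y x → InV E y l) (he : Func E e A B)
    (el : ∀ φ (v : ℕ → {x | E x A}) (w : ℕ → {x | E x B}), (∀ n, App E e (v n).1 (w n).1) →
      (Sat (Res E {x | E x A}) φ v ↔ Sat (Res E {x | E x B}) φ w))
    (fx : ∀ α, E α k → App E e α α) (mv : ¬ App E e k k) :
    E k l ∧ (∀ f, Func E f k l → ∃ b, E b l ∧ ∀ x y, App E f x y → E y b) ∧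
      Conc E k fun α => Superstrong E α l :=
  have : ZF E := ⟨hZF⟩
  let ⟨a, b, c⟩ := OneExt.hyp hAC ⟨h1, h2, A, B, e, hA, hB, he, el, fx, mv⟩
  ⟨b, fun f => a.2.2.1 k b f trivial, c⟩

/-- `j : V → W` with critical point `l` and `W` closed under `|V_{l+1}|`-sequences. -/
theorem superC {M : Type u} (E : M → M → Prop) (hZF : IsZF E) (hAC : Choice E) (l μ p : M)
    (j : M → M) (W : Set M) (hj : ElEmb E j W l) (hp : ∀ x, E x p ↔ ∀ y, E y x → InV E y l)
    (hμ : Eqp E μ p) (lt : E μ (j l))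
    (cl : ∀ f b, Func E f μ b → (∀ x y, App E f x y → y ∈ W) → f ∈ W) :
    ∃ k, E k l ∧ (∀ f, Func E f k l → ∃ b, E b l ∧ ∀ x y, App E f x y → E y b) ∧
      Conc E k fun α => Superstrong E α l :=
  have : ZF E := ⟨hZF⟩
  let ⟨a, k, b, c⟩ := SuperC.hyp hAC ⟨j, W, hj, lt, cl⟩ hp hμ
  ⟨k, b, fun f => a.2.2.1 k b f trivial, c⟩

end Pool.Agent.Results.MP_894941_lc.NoEEA
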